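import Pool.Agent.Lib.MP_d131fa_co.Dens

/-!
# The q-dichromate determines connected graphs with independent multiplicities, for every `q > 1`
-/

namespace Pool.Agent.Results.MP_d131fa_co.GenericMultiplicities

open Pool.D131

/-- A finite graph with loops and parallel edges on `V` is given by its multiplicities
`μ : Sym2 V → ℕ`. `Conn μ`: it is connected. `Indep μ`: there is no nontrivial linear relation with
integer coefficients of absolute value at most `3` between the multiplicities of its pairs of
adjacent vertices. `Determined μ`: for every real `q > 1`, every graph with the same q-dichromate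
`Bq q` has the same U-polynomial and the same number of edges and is isomorphic to it up to the
position of the loops. -/
theorem result :
    (∀ (V : Type) [Fintype V] [DecidableEq V] (μ : Sym2 V → ℕ),
      Conn μ → Indep μ → Determined μ) ∧
    (∀ (V : Type) [Fintype V] [DecidableEq V] (μ : Sym2 V → ℕ), Conn μ →
      (∀ s, ¬ s.IsDiag → μ s ≠ 0 → ∃ k, μ s = 7 ^ k) →
      (∀ s t, ¬ s.IsDiag → ¬ t.IsDiag → μ s ≠ 0 → μ s = μ t → s = t) → Determined μ) ∧
    (∀ n M : ℕ, 1 ≤ n →
      (M + 1) * Nat.card
        {μ : Sym2 (Fin n) → Fin (M + 1) // ¬ Determined (fun s => (μ s : ℕ))} ≤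
      7 ^ (n.choose 2) * (M + 1) ^ ((n + 1).choose 2)) :=
  ⟨fun _ _ _ _ hc hi => determined hi hc,
    fun _ _ _ _ hc h1 h2 => determined (indep_pow h1 h2) hc,
    fun _ _ hn => density hn⟩

end Pool.Agent.Results.MP_d131fa_co.GenericMultiplicities
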