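import Mathlib
import Pool.Agent.Lib.QDichromate.Defs
import Pool.Agent.Lib.QDichromate.Core
import Pool.Agent.Lib.QDichromate.Comps
import Pool.Agent.Lib.QDichromate.FewC
import Pool.Agent.Lib.QDichromate.ExcBound
import Pool.Agent.Lib.QDichromate.Small3
import Pool.Agent.Lib.QDichromate.Fixed

/-!
MP_d131fa_co: for graphs with n vertices and all real q > 1 outside a finite set of algebraic
numbers less than n^n + 1 depending only on n, the q-dichromate determines the q'-dichromates for all q' > 1, the
dichromatic (Tutte) polynomial, the joint distributions of colour sum and number of monochromatic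
edges over colourings with any number of colours, all coefficients of the U-polynomial that belong
to edge sets with at most four edges or to partitions with at most two or at least n - 2 parts, and
the numbers of pairs of a set of j edges and a component with m vertices. For every real q > 1 the
q-dichromate determines the numbers of edge sets with m elements and a given type if m is at most two,
and for all m if the type has one part (so the reliability polynomial); and it determines whether the
graph is simple, and for simple graphs the numbers of edge sets with m elements and a given type with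
more than n - m parts for m at most four, so it determines the number of triangles.
-/

open scoped Classical

namespace Pool.Agent.Results.MP_d131fa_co.Invariants

open Pool.Agent.Lib.QDichromate

theorem result :
    (∀ n : ℕ, ∃ S : Set ℝ, S.Finite ∧ (∀ s ∈ S, IsAlgebraic ℤ s ∧ s < (n : ℝ) ^ n + 1) ∧
      ∀ q : ℝ, 1 < q → q ∉ S →
      ∀ (V E V' E' : Type) [Fintype V] [Fintype E] [Fintype V'] [Fintype E']
        (G : E → Sym2 V) (H : E' → Sym2 V'), Fintype.card V = n →
        (∀ x y : ℝ, B q G x y = B q H x y) →
          (∀ T : ℝ, 1 < T → ∀ x y : ℝ, B T G x y = B T H x y) ∧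
          (∀ x y : ℝ, ∑ A : Finset E, y ^ A.card * x ^ Multiset.card (tau G A) =
            ∑ A : Finset E', y ^ A.card * x ^ Multiset.card (tau H A)) ∧
          (∀ x j k : ℕ,
            (Finset.univ.filter fun c : V → Fin x =>
              ∑ v, (c v : ℕ) = k ∧ (mono G c).card = j).card =
            (Finset.univ.filter fun c : V' → Fin x =>
              ∑ v, (c v : ℕ) = k ∧ (mono H c).card = j).card) ∧
          (∀ (m : ℕ) (t : Multiset ℕ),
            (m ≤ 4 ∨ Multiset.card t ≤ 2 ∨ n ≤ Multiset.card t + 2) →
            (Finset.univ.filter fun A : Finset E => A.card = m ∧ tau G A = t).card =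
            (Finset.univ.filter fun A : Finset E' => A.card = m ∧ tau H A = t).card) ∧
          (∀ m j : ℕ,
            ∑ A ∈ Finset.univ.filter (fun A : Finset E => A.card = j), (tau G A).count m =
            ∑ A ∈ Finset.univ.filter (fun A : Finset E' => A.card = j), (tau H A).count m)) ∧
    (∀ q : ℝ, 1 < q →
      ∀ (V E V' E' : Type) [Fintype V] [Fintype E] [Fintype V'] [Fintype E']
        (G : E → Sym2 V) (H : E' → Sym2 V'),
        (∀ x y : ℝ, B q G x y = B q H x y) →
          Fintype.card V' = Fintype.card V ∧
          (∀ (m : ℕ) (t : Multiset ℕ), (m ≤ 2 ∨ Multiset.card t ≤ 1) →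
            (Finset.univ.filter fun A : Finset E => A.card = m ∧ tau G A = t).card =
            (Finset.univ.filter fun A : Finset E' => A.card = m ∧ tau H A = t).card) ∧
          (Simple G → Simple H ∧
            ∀ (m : ℕ) (t : Multiset ℕ), m ≤ 4 → Fintype.card V < Multiset.card t + m →
            (Finset.univ.filter fun A : Finset E => A.card = m ∧ tau G A = t).card =
            (Finset.univ.filter fun A : Finset E' => A.card = m ∧ tau H A = t).card)) := by
  refine ⟨fun n => ?_, ?_⟩
  · refine ⟨Exc n, Exc_finite n, fun s hs => ⟨Exc_algebraic n s hs, Exc_lt n s hs⟩, ?_⟩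
    intro q hq hS V E V' E' _ _ _ _ G H hn h
    have hall : ∀ T : ℝ, 1 < T → ∀ x y : ℝ, B T G x y = B T H x y := fun T hT x y =>
      B_all n q hq hS G H hn h T hT x y
    refine ⟨hall, fun x y => tutte_eq G H hall x y, fun x j k => colour_count G H hall x j k, ?_,
      fun m j => comps_count G H hall m j⟩
    intro m t ht
    have h1 : dd G H m t = 0 := by
      rcases ht with ht | ht | ht
      · exact few_edges G H hall m ht t
      · exact two_parts G H hall m t ht
      · exact many_parts G H hall m t (by rw [hn]; exact ht)
    rw [dd, cnt, cnt] at h1
    omega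
  · intro q hq V E V' E' _ _ _ _ G H h
    have hd : ∀ (m : ℕ) (t : Multiset ℕ), dd G H m t = 0 →
        (Finset.univ.filter fun A : Finset E => A.card = m ∧ tau G A = t).card =
        (Finset.univ.filter fun A : Finset E' => A.card = m ∧ tau H A = t).card := by
      intro m t h4
      rw [dd, cnt, cnt] at h4
      omega
    refine ⟨(card_eq_of_B q hq G H h).symm, fun m t ht => hd m t (fixed_all q hq G H h m t ht),
      fun hG => ⟨(fixed_simple q hq G H hG h).1, fun m t h1 h2 =>
        hd m t ((fixed_simple q hq G H hG h).2 m t h1 h2)⟩⟩

end Pool.Agent.Results.MP_d131fa_co.Invariants
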