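import Pool.Agent.Lib.MP_d131fa_co.Dn4

/-!
# The q-dichromate determines the small cuts, for every `q > 1`: spiders and dense graphs
-/

namespace Pool.Agent.Results.MP_d131fa_co.SmallCuts

open Pool.D131

/-- A finite graph with loops and parallel edges on `V` is given by its multiplicities
`μ : Sym2 V → ℕ`. `EC μ L`: every cut into two nonempty parts has at least `L` edges. `cc μ c s`:
the number of the sets of `s` vertices with `c` boundary edges, given by their indicator functions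
`V → Fin 2`. `dg μ v`: the number of the edges that are not loops at `v`. `IsTree μ`: connected with
`|V| - 1` edges. `Simple μ`: there are no loops and no parallel edges. `Uni μ`: all simple graphs
with the same degrees are isomorphic to it. `Determined μ`: for every real `q > 1`, every graph with
the same q-dichromate `Bq q` has the same U-polynomial and is isomorphic to it (up to the position of
the loops; trees and simple graphs have none). -/
theorem result :
    (∀ (q : ℝ), 1 < q → ∀ (V W : Type) [Fintype V] [DecidableEq V] [Fintype W] [DecidableEq W]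
      (μ : Sym2 V → ℕ) (ν : Sym2 W → ℕ) (L : ℕ), 1 ≤ L → EC μ L →
      (∀ x y : ℝ, Bq q μ x y = Bq q ν x y) → Fintype.card V = Fintype.card W ∧
      EC ν L ∧ ∀ c s, 1 ≤ c → 2 * c < 3 * L → s < Fintype.card V → cc μ c s = cc ν c s) ∧
    (∀ (V : Type) [Fintype V] [DecidableEq V] (μ : Sym2 V → ℕ), IsTree μ →
      (∃ c, ∀ v, v ≠ c → dg μ v ≤ 2) → Determined μ) ∧
    (∀ (q : ℝ), 1 < q → ∀ (V W : Type) [Fintype V] [DecidableEq V] [Fintype W] [DecidableEq W]
      (μ : Sym2 V → ℕ) (ν : Sym2 W → ℕ), IsTree μ → (∀ x y : ℝ, Bq q μ x y = Bq q ν x y) →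
      IsTree ν ∧ ∑ v, dg μ v ^ 2 = ∑ w, dg ν w ^ 2) ∧
    (∀ (V : Type) [Fintype V] [DecidableEq V] (μ : Sym2 V → ℕ), Simple μ → 2 ≤ Fintype.card V →
      (∀ v, 2 * (Fintype.card V - 1) < 3 * dg μ v) → Uni μ → Determined μ) ∧
    (∀ (V : Type) [Fintype V] [DecidableEq V] (μ : Sym2 V → ℕ), Simple μ → 5 ≤ Fintype.card V →
      (∀ v, Fintype.card V ≤ dg μ v + 2) → Determined μ) ∧
    (∀ (q : ℝ), 1 < q → ∀ (V W : Type) [Fintype V] [DecidableEq V] [Fintype W] [DecidableEq W]
      (μ : Sym2 V → ℕ) (ν : Sym2 W → ℕ), Simple μ → 2 ≤ Fintype.card V →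
      (∀ v, 2 * (Fintype.card V - 1) < 3 * dg μ v) → (∀ x y : ℝ, Bq q μ x y = Bq q ν x y) →
      Simple ν ∧ ∃ e : V ≃ W, ∀ v, dg ν (e v) = dg μ v) :=
  ⟨fun _ hq _ _ _ _ _ _ μ ν _ h1 hL h => ⟨card_eq hq μ ν h, ec_transfer hq hL h1 ν h,
      fun _ _ hc1 hc2 hs => cc_eq hq (twoV_of hL hc1 hc2) hc1 ν
        (twoV_of (ec_transfer hq hL h1 ν h) hc1 hc2) h hs⟩,
    fun _ _ _ _ ht hc => spider_determined ht hc,
    fun _ hq _ _ _ _ _ _ _ ν ht h => ⟨tree_of hq ht ν h, sq_eq hq ht ν h⟩,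
    fun _ _ _ _ hs h2 hd hu => uni_determined hs h2 hd hu,
    fun _ _ _ _ hs h5 hd => matching_determined hs h5 hd,
    fun _ hq _ _ _ _ _ _ _ ν hs h2 hd h => dense_transfer hq hs h2 hd ν h⟩

end Pool.Agent.Results.MP_d131fa_co.SmallCuts
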