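import Mathlib
import Pool.Agent.Lib.QDichromate.Defs
import Pool.Agent.Lib.QDichromate.Core
import Pool.Agent.Lib.QDichromate.Small3
import Pool.Agent.Lib.QDichromate.Six
import Pool.Agent.Lib.QDichromate.Seven

/-!
MP_d131fa_co: the q-dichromate determines the U-polynomial for graphs (with loops and parallel
edges) with at most five vertices and simple graphs with at most seven, for every real q > 1; and, for all but finitely many real q > 1
(for each number n of vertices; the exceptions are algebraic and less than n^n + 1), for graphs with at most eight vertices, for simple graphs with at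
most ten vertices, for simple graphs without triangles with at most thirteen vertices, for graphs
with at most one cycle and at most thirteen vertices, for graphs without three pairwise disjoint
edges, for graphs in which any two paths with three vertices have a common vertex, and for graphs
without four pairwise disjoint edges with at most thirty vertices.
-/

namespace Pool.Agent.Results.MP_d131fa_co.SmallOrder

open Pool.Agent.Lib.QDichromate

theorem result :
    (∀ q : ℝ, 1 < q →
      ∀ (V E V' E' : Type) [Fintype V] [Fintype E] [Fintype V'] [Fintype E']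
        (G : E → Sym2 V) (H : E' → Sym2 V'),
        (Fintype.card V ≤ 5 ∨ (Simple G ∧ Fintype.card V ≤ 7)) →
        (∀ x y : ℝ, B q G x y = B q H x y) → U G = U H) ∧
    (∀ n : ℕ, ∃ S : Set ℝ, S.Finite ∧ (∀ s ∈ S, IsAlgebraic ℤ s ∧ s < (n : ℝ) ^ n + 1) ∧
      ∀ q : ℝ, 1 < q → q ∉ S →
      ∀ (V E V' E' : Type) [Fintype V] [Fintype E] [Fintype V'] [Fintype E']
        (G : E → Sym2 V) (H : E' → Sym2 V'), Fintype.card V = n →
        (n ≤ 8 ∨
          (Simple G ∧ n ≤ 10) ∨
          (Simple G ∧ TriangleFree G ∧ n ≤ 13) ∨
          (Fintype.card E + Multiset.card (tau G (Finset.univ : Finset E)) ≤ n + 1 ∧ n ≤ 13) ∨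
          NoDisj 3 G ∨
          PathsMeet G ∨
          (NoDisj 4 G ∧ n ≤ 30)) →
        (∀ x y : ℝ, B q G x y = B q H x y) → U G = U H) :=
  ⟨fun q hq _ _ _ _ _ _ _ _ G H hn h => case_small7 q hq G H hn h, case_classes⟩

end Pool.Agent.Results.MP_d131fa_co.SmallOrder
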